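import Mathlib

/-!
# Products of few functions from a space of small dimension: a triangular system
-/

set_option autoImplicit false
set_option linter.unusedSectionVars false

namespace Pool.Agent.Y424.FC

open Finset

variable {V : Type} [Fintype V] {ι : Type} [Fintype ι]

/-- the monomial of the multiset `σ` in the functions `b i` (`i : ι`) and `1` (index `none`) -/
def mon (b : ι → V → ℝ) (σ : Multiset (Option ι)) : V → ℝ :=
  fun u => (σ.map (fun i => i.elim 1 (fun j => b j u))).prod

/-- span of the monomials of degree `k` -/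
def W (b : ι → V → ℝ) (k : ℕ) : Submodule ℝ (V → ℝ) :=
  Submodule.span ℝ (Set.range (fun σ : Sym (Option ι) k => mon b (σ : Multiset (Option ι))))

theorem mul_mem (b : ι → V → ℝ) (k : ℕ) (i : Option ι) {g : V → ℝ} (hg : g ∈ W b k) :
    (fun u => (i.elim 1 (fun j => b j u)) * g u) ∈ W b (k + 1) := by
  refine Submodule.span_induction (p := fun g _ =>
    (fun u => (i.elim 1 (fun j => b j u)) * g u) ∈ W b (k + 1)) ?_ ?_ ?_ ?_ hg
  · rintro _ ⟨σ, rfl⟩
    apply Submodule.subset_span
    refine ⟨i ::ₛ σ, ?_⟩
    funext u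
    show mon b ((i ::ₛ σ : Sym (Option ι) (k + 1)) : Multiset (Option ι)) u =
      (i.elim 1 (fun j => b j u)) * mon b (σ : Multiset (Option ι)) u
    unfold mon
    rw [Sym.coe_cons, Multiset.map_cons, Multiset.prod_cons]
  · have : (fun u : V => (i.elim 1 (fun j => b j u)) * (0 : V → ℝ) u) = 0 := by
      funext u
      simp
    rw [this]
    exact Submodule.zero_mem _
  · intro x y _ _ hx hy
    have : (fun u : V => (i.elim 1 (fun j => b j u)) * (x + y) u) =
        (fun u => (i.elim 1 (fun j => b j u)) * x u) + (fun u => (i.elim 1 (fun j => b j u)) * y u) := by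
      funext u
      simp only [Pi.add_apply]
      ring
    rw [this]
    exact Submodule.add_mem _ hx hy
  · intro a x _ hx
    have : (fun u : V => (i.elim 1 (fun j => b j u)) * (a • x) u) =
        a • (fun u => (i.elim 1 (fun j => b j u)) * x u) := by
      funext u
      simp only [Pi.smul_apply, smul_eq_mul]
      ring
    rw [this]
    exact Submodule.smul_mem _ _ hx

theorem W_mono_succ (b : ι → V → ℝ) (k : ℕ) {g : V → ℝ} (hg : g ∈ W b k) : g ∈ W b (k + 1) := by
  have h := mul_mem b k none hg
  simpa using h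

theorem W_mono (b : ι → V → ℝ) {k l : ℕ} (h : k ≤ l) {g : V → ℝ} (hg : g ∈ W b k) : g ∈ W b l := by
  induction h with
  | refl => exact hg
  | step _ ih => exact W_mono_succ b _ ih

/-- multiplication with `h - c`, `h` in the span of the `b i` -/
theorem mul_sub_mem (b : ι → V → ℝ) (k : ℕ) {g h : V → ℝ} (hg : g ∈ W b k)
    (hh : h ∈ Submodule.span ℝ (Set.range b)) (c : ℝ) :
    (fun u => (h u - c) * g u) ∈ W b (k + 1) := by
  have h1 : (fun u => h u * g u) ∈ W b (k + 1) := by
    refine Submodule.span_induction (p := fun h _ => (fun u => h u * g u) ∈ W b (k + 1))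
      ?_ ?_ ?_ ?_ hh
    · rintro _ ⟨i, rfl⟩
      exact mul_mem b k (some i) hg
    · have : (fun u : V => (0 : V → ℝ) u * g u) = 0 := by
        funext u
        simp
      rw [this]
      exact Submodule.zero_mem _
    · intro x y _ _ hx hy
      have : (fun u : V => (x + y) u * g u) = (fun u => x u * g u) + (fun u => y u * g u) := by
        funext u
        simp only [Pi.add_apply]
        ring
      rw [this]
      exact Submodule.add_mem _ hx hy
    · intro a x _ hx
      have : (fun u : V => (a • x) u * g u) = a • (fun u => x u * g u) := by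
        funext u
        simp only [Pi.smul_apply, smul_eq_mul]
        ring
      rw [this]
      exact Submodule.smul_mem _ _ hx
  have h2 : (fun u => (h u - c) * g u) = (fun u => h u * g u) - c • g := by
    funext u
    simp only [Pi.sub_apply, Pi.smul_apply, smul_eq_mul]
    ring
  rw [h2]
  exact Submodule.sub_mem _ h1 (Submodule.smul_mem _ _ (W_mono_succ b k hg))

theorem one_mem (b : ι → V → ℝ) : (fun _ => (1 : ℝ)) ∈ W b 0 := by
  apply Submodule.subset_span
  refine ⟨Sym.nil, ?_⟩
  funext u
  simp [mon]

theorem prod_mem (b : ι → V → ℝ) {h : V → ℝ} (hh : h ∈ Submodule.span ℝ (Set.range b)) (C : Finset ℝ) :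
    (fun u => ∏ c ∈ C, (h u - c)) ∈ W b C.card := by
  classical
  induction C using Finset.induction_on with
  | empty => simpa using one_mem b
  | insert c C hc ih =>
    have h1 := mul_sub_mem b C.card ih hh c
    rw [card_insert_of_notMem hc]
    have h2 : (fun u => ∏ c' ∈ insert c C, (h u - c')) = fun u => (h u - c) * ∏ c' ∈ C, (h u - c') := by
      funext u
      rw [prod_insert hc]
    rw [h2]
    exact h1

theorem finrank_W (b : ι → V → ℝ) (k : ℕ) :
    Module.finrank ℝ (W b k) ≤ (Fintype.card ι + k).choose k := by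
  classical
  have h1 : Module.finrank ℝ (W b k) ≤ Fintype.card (Sym (Option ι) k) :=
    finrank_range_le_card (R := ℝ) (fun σ : Sym (Option ι) k => mon b (σ : Multiset (Option ι)))
  refine h1.trans (le_of_eq ?_)
  rw [Sym.card_sym_eq_choose, Fintype.card_option]
  congr 1
  omega

/-- **The triangular system.** -/
theorem card_le {r s : ℕ} (R : Submodule ℝ (V → ℝ)) (hR : Module.finrank ℝ R ≤ r)
    (S : Finset V) (d : V → ℕ) (h : V → V → ℝ) (hh : ∀ v ∈ S, h v ∈ R)
    (C : V → Finset ℝ) (hC : ∀ v ∈ S, (C v).card ≤ s) (hd : ∀ v ∈ S, h v v ∉ C v)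
    (hz : ∀ v ∈ S, ∀ u ∈ S, u ≠ v → d u ≤ d v → h v u ∈ C v) :
    S.card ≤ (r + s).choose s := by
  classical
  let bas := Module.finBasis ℝ R
  let b : Fin (Module.finrank ℝ R) → V → ℝ := fun i => (bas i : V → ℝ)
  have hb : ∀ x ∈ R, x ∈ Submodule.span ℝ (Set.range b) := by
    intro x hx
    have h1 := bas.sum_repr ⟨x, hx⟩
    have h2 : x = ∑ i, bas.repr ⟨x, hx⟩ i • b i := by
      have h3 := congrArg (Subtype.val) h1
      have h4 : ((∑ i, bas.repr ⟨x, hx⟩ i • bas i : R) : V → ℝ) = ∑ i, bas.repr ⟨x, hx⟩ i • b i := by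
        rw [Submodule.coe_sum]
        rfl
      rw [← h4, h3]
    rw [h2]
    exact Submodule.sum_mem _ (fun i _ => Submodule.smul_mem _ _ (Submodule.subset_span ⟨i, rfl⟩))
  let g : S → V → ℝ := fun v u => ∏ c ∈ C v, (h v u - c)
  have hg : ∀ v : S, g v ∈ W b s := fun v =>
    W_mono b (hC v v.2) (prod_mem b (hb _ (hh v v.2)) (C v))
  have hli : LinearIndependent ℝ g := by
    rw [Fintype.linearIndependent_iff]
    intro l hl
    by_contra hne
    push Not at hne
    obtain ⟨w, hw⟩ := hne
    obtain ⟨u, hu, hmin⟩ := exists_min_image ((univ : Finset S).filter (fun v => l v ≠ 0))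
      (fun v => d v) ⟨w, mem_filter.2 ⟨mem_univ _, hw⟩⟩
    have hu0 := (mem_filter.1 hu).2
    have h1 := congrFun hl u
    rw [Finset.sum_apply] at h1
    simp only [Pi.smul_apply, smul_eq_mul, Pi.zero_apply] at h1
    rw [Finset.sum_eq_single u] at h1
    · rcases mul_eq_zero.1 h1 with h2 | h2
      · exact hu0 h2
      · rw [Finset.prod_eq_zero_iff] at h2
        obtain ⟨c, hc, hc2⟩ := h2
        have h3 : h u u = c := by linarith
        exact hd u u.2 (h3 ▸ hc)
    · intro v _ hvu
      by_cases hv0 : l v = 0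
      · rw [hv0, zero_mul]
      · have h4 := hmin v (mem_filter.2 ⟨mem_univ _, hv0⟩)
        have h5 := hz v v.2 u u.2 (fun he => hvu (Subtype.ext he.symm)) h4
        have h6 : g v u = 0 := prod_eq_zero h5 (by ring)
        rw [h6, mul_zero]
    · intro h
      exact absurd (mem_univ u) h
  have h7 : Fintype.card S ≤ Module.finrank ℝ (W b s) := by
    have h8 : LinearIndependent ℝ (fun v : S => (⟨g v, hg v⟩ : W b s)) := by
      apply LinearIndependent.of_comp (W b s).subtype
      exact hli
    exact h8.fintype_card_le_finrank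
  have h9 := h7.trans (finrank_W b s)
  rw [Fintype.card_coe, Fintype.card_fin] at h9
  exact h9.trans (Nat.choose_le_choose s (Nat.add_le_add_right hR s))

end Pool.Agent.Y424.FC
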